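import Mathlib

/-!
# The curse of dimensionality for the `L₁`-discrepancy with non-negative weights

After multiplication by `2^d` the discrepancy is the `L₁`-distance between the product density
`u(x) = ∏ 2 xᵢ` on the cube and a non-negative combination `∑ cₖ vₖ` of the uniform densities `vₖ`
of the boxes `(tₖ, 1]`.  The Hellinger affinity `∫ √(u vₖ)` is a product of one-dimensional
affinities, each at most `97/100`, whatever the node `tₖ` is.  The pointwise inequality
`|∑ cₖ vₖ - u| ≥ u - ∑ (1 + cₖ) √(u vₖ)` gives `2^d e(A) ≥ 1 - (N + W) (97/100)^d`, with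
`W = ∑ cₖ`, and trivially `2^d e(A) ≥ W - 1`; so `2^d e(A) ≥ 1 - (N + 2) (97/100)^d`.
-/

set_option autoImplicit false

open MeasureTheory Set

namespace Pool.Agent.Results.MP_2335a4_an.CurseL1

/-- The generalized `L₁`-discrepancy of the nodes `t k` with weights `a k`. -/
noncomputable def disc {d N : ℕ} (a : Fin N → ℝ) (t : Fin N → Fin d → ℝ) : ℝ :=
  ∫ x in Icc (0 : Fin d → ℝ) 1, |∑ k, a k * (if ∀ i, t k i < x i then 1 else 0) - ∏ i, x i|

/-- one coordinate: affinity bound -/
theorem aff_poly (s : ℝ) (h0 : 0 ≤ s) (h1 : s ≤ 1) :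
    8 * ((1 - s) * (1 + s + s ^ 2) ^ 2) ≤ 9 * ((97 / 100) ^ 2 * (1 + s)) := by
  nlinarith [sq_nonneg (s - 36/100), mul_nonneg h0 (sq_nonneg (s - 36/100)), mul_nonneg h0 (sub_nonneg.2 h1),
    mul_nonneg (mul_nonneg h0 h0) (sq_nonneg (s - 36/100)), mul_nonneg (mul_nonneg h0 (mul_nonneg h0 h0)) (sq_nonneg (s - 36/100)),
    mul_nonneg (mul_nonneg (mul_nonneg h0 h0) (mul_nonneg h0 h0)) h0]

theorem int_sqrt (t : ℝ) (h0 : 0 ≤ t) (h1 : t < 1) :
    ∫ x in Ioc t 1, Real.sqrt (2 * x / (1 - t)) ≤ 97 / 100 := by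
  have hs0 : 0 ≤ Real.sqrt t := Real.sqrt_nonneg t
  have hs1 : Real.sqrt t < 1 := by
    rw [Real.sqrt_lt' one_pos]; simpa using h1
  set s := Real.sqrt t with hs
  have hst : t = s ^ 2 := by rw [hs, Real.sq_sqrt h0]
  have hpos : 0 < 1 - t := by linarith
  have e1 : ∫ x in Ioc t 1, Real.sqrt (2 * x / (1 - t)) =
      Real.sqrt (2 / (1 - t)) * ∫ x in Ioc t 1, Real.sqrt x := by
    rw [← integral_const_mul]
    refine setIntegral_congr_fun measurableSet_Ioc ?_
    intro x hx
    simp only
    rw [← Real.sqrt_mul (by positivity)]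
    congr 1
    ring
  have e2 : ∫ x in Ioc t 1, Real.sqrt x = 2 / 3 * (1 - s ^ 3) := by
    rw [← intervalIntegral.integral_of_le h1.le]
    have : ∀ x : ℝ, Real.sqrt x = x ^ (1 / 2 : ℝ) := fun x => Real.sqrt_eq_rpow x
    simp_rw [this]
    rw [integral_rpow (Or.inl (by norm_num))]
    have h3 : t ^ ((1 : ℝ) / 2 + 1) = s ^ 3 := by
      rw [hst, ← Real.rpow_natCast s 2, ← Real.rpow_mul hs0, ← Real.rpow_natCast s 3]
      norm_num
    rw [h3]
    rw [Real.one_rpow]
    norm_num
    ring
  rw [e1, e2]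
  have hs3 : s ^ 3 ≤ 1 := pow_le_one₀ hs0 hs1.le
  refine abs_le_of_sq_le_sq' ?_ (by norm_num) |>.2
  rw [mul_pow, Real.sq_sqrt (by positivity), hst]
  have hp : 0 < 1 - s ^ 2 := by nlinarith
  have hp' : 0 < 1 + s := by linarith
  have hfac : 1 - s ^ 2 = (1 - s) * (1 + s) := by ring
  have h3 : 1 - s ^ 3 = (1 - s) * (1 + s + s ^ 2) := by ring
  have hs' : 0 < 1 - s := by linarith
  rw [hfac, h3]
  have key := aff_poly s hs0 hs1.le
  have e4 : 2 / ((1 - s) * (1 + s)) * (2 / 3 * ((1 - s) * (1 + s + s ^ 2))) ^ 2 =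
      8 * ((1 - s) * (1 + s + s ^ 2) ^ 2) / (9 * (1 + s)) := by
    field_simp
    ring
  rw [e4, div_le_iff₀ (by positivity)]
  nlinarith [key]

/-- Lebesgue measure on the unit interval -/
noncomputable abbrev lam : Measure ℝ := volume.restrict (Icc 0 1)

theorem restrict_cube (d : ℕ) :
    (volume : Measure (Fin d → ℝ)).restrict (Icc 0 1) = Measure.pi (fun _ => lam) := by
  rw [volume_pi, ← pi_univ_Icc, Measure.restrict_pi_pi]
  rfl

theorem int_if (t : ℝ) (h0 : 0 ≤ t) (f : ℝ → ℝ) :
    ∫ x, (if t < x then f x else 0) ∂lam = ∫ x in Ioc t 1, f x := by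
  have : (fun x => if t < x then f x else 0) = (Ioi t).indicator f := by
    funext x
    simp [indicator, mem_Ioi]
  rw [this, integral_indicator measurableSet_Ioi, Measure.restrict_restrict measurableSet_Ioi]
  congr 2
  ext x
  simp only [mem_inter_iff, mem_Ioi, mem_Icc, mem_Ioc]
  constructor
  · rintro ⟨h1, h2, h3⟩; exact ⟨h1, h3⟩
  · rintro ⟨h1, h2⟩; exact ⟨h1, by linarith, h2⟩

theorem integrable_if (t : ℝ) (f : ℝ → ℝ) (hf : Integrable f lam) :
    Integrable (fun x => if t < x then f x else 0) lam := by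
  have : (fun x => if t < x then f x else 0) = (Ioi t).indicator f := by
    funext x
    simp [indicator, mem_Ioi]
  rw [this]
  exact hf.indicator measurableSet_Ioi

theorem integrable_cont (f : ℝ → ℝ) (hf : Continuous f) : Integrable f lam :=
  hf.continuousOn.integrableOn_compact isCompact_Icc

theorem int_two : ∫ x, 2 * x ∂lam = 1 := by
  rw [integral_Icc_eq_integral_Ioc, ← intervalIntegral.integral_of_le zero_le_one,
    intervalIntegral.integral_const_mul, integral_id]
  norm_num

theorem int_unif (t : ℝ) (h1 : t < 1) : ∫ _x in Ioc t 1, 1 / (1 - t) = 1 := by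
  have : 1 - t ≠ 0 := by linarith
  rw [setIntegral_const]
  simp [Measure.real, h1.le, this]

/-- the pointwise inequality -/
theorem pointwise {N : ℕ} (c v s : Fin N → ℝ) (u : ℝ) (hc : ∀ k, 0 ≤ c k) (hv : ∀ k, 0 ≤ v k)
    (hs : ∀ k, 0 ≤ s k) (hu : 0 ≤ u) (h : ∀ k, s k ^ 2 = u * v k) :
    u - ∑ k, (1 + c k) * s k ≤ |∑ k, c k * v k - u| := by
  by_cases hex : ∃ k, u ≤ v k
  · obtain ⟨k, hk⟩ := hex
    have h1 : u ≤ s k := by
      refine (sq_le_sq₀ hu (hs k)).1 ?_
      rw [h k]; nlinarith
    have h2 : (1 + c k) * s k ≤ ∑ k, (1 + c k) * s k :=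
      Finset.single_le_sum (f := fun k => (1 + c k) * s k)
        (fun i _ => mul_nonneg (add_nonneg zero_le_one (hc i)) (hs i)) (Finset.mem_univ k)
    have h3 : s k ≤ (1 + c k) * s k := by nlinarith [hc k, hs k]
    linarith [abs_nonneg (∑ k, c k * v k - u)]
  · push Not at hex
    have h1 : ∀ k, v k ≤ s k := by
      intro k
      refine (sq_le_sq₀ (hv k) (hs k)).1 ?_
      rw [h k]; nlinarith [hex k, hv k]
    have h2 : ∑ k, c k * v k ≤ ∑ k, (1 + c k) * s k := by
      apply Finset.sum_le_sum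
      intro k _
      nlinarith [hc k, hs k, h1 k]
    have h3 := neg_abs_le (∑ k, c k * v k - u)
    linarith

section main
variable {d N : ℕ} (a : Fin N → ℝ) (t : Fin N → Fin d → ℝ)

theorem lower (ha : ∀ k, 0 ≤ a k) (ht : ∀ k i, 0 ≤ t k i ∧ t k i < 1) :
    (1 - (N + 2) * (97 / 100) ^ d) / 2 ^ d ≤ disc a t := by
  set μ : Measure (Fin d → ℝ) := Measure.pi (fun _ => lam) with hμ
  let u : (Fin d → ℝ) → ℝ := fun x => ∏ i, 2 * x i
  let v : Fin N → (Fin d → ℝ) → ℝ := fun k x => ∏ i, (if t k i < x i then 1 / (1 - t k i) else 0)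
  let s : Fin N → (Fin d → ℝ) → ℝ := fun k x =>
    ∏ i, (if t k i < x i then Real.sqrt (2 * x i / (1 - t k i)) else 0)
  let c : Fin N → ℝ := fun k => a k * (2 ^ d * ∏ i, (1 - t k i))
  have hpos : ∀ k i, 0 < 1 - t k i := fun k i => by linarith [(ht k i).2]
  have hc : ∀ k, 0 ≤ c k := fun k =>
    mul_nonneg (ha k) (mul_nonneg (by positivity) (Finset.prod_nonneg fun i _ => (hpos k i).le))
  have iu : Integrable u μ := Integrable.fintype_prod (f := fun _ x => 2 * x)
    (fun i => integrable_cont _ (by fun_prop))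
  have iv : ∀ k, Integrable (v k) μ := fun k =>
    Integrable.fintype_prod (f := fun i x => if t k i < x then 1 / (1 - t k i) else 0)
      (fun i => integrable_if _ (fun _ => 1 / (1 - t k i)) (integrable_cont _ (by fun_prop)))
  have is : ∀ k, Integrable (s k) μ := fun k =>
    Integrable.fintype_prod (f := fun i x => if t k i < x then Real.sqrt (2 * x / (1 - t k i)) else 0)
      (fun i => integrable_if _ (fun x => Real.sqrt (2 * x / (1 - t k i)))
        (integrable_cont _ (by fun_prop)))
  have Iu : ∫ x, u x ∂μ = 1 := by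
    have := integral_fintype_prod_eq_prod (𝕜 := ℝ) (μ := fun _ : Fin d => lam) (fun _ x => 2 * x)
    rw [hμ]
    rw [this]
    simp [int_two]
  have Iv : ∀ k, ∫ x, v k x ∂μ = 1 := by
    intro k
    have := integral_fintype_prod_eq_prod (𝕜 := ℝ) (μ := fun _ : Fin d => lam)
      (fun i x => if t k i < x then 1 / (1 - t k i) else 0)
    rw [hμ, this]
    apply Finset.prod_eq_one
    intro i _
    rw [int_if _ (ht k i).1 (fun _ => 1 / (1 - t k i)), int_unif _ (ht k i).2]
  have Is : ∀ k, ∫ x, s k x ∂μ ≤ (97 / 100) ^ d := by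
    intro k
    have := integral_fintype_prod_eq_prod (𝕜 := ℝ) (μ := fun _ : Fin d => lam)
      (fun i x => if t k i < x then Real.sqrt (2 * x / (1 - t k i)) else 0)
    rw [hμ, this]
    calc _ ≤ ∏ _i : Fin d, (97 / 100 : ℝ) := by
          apply Finset.prod_le_prod
          · intro i _
            apply integral_nonneg
            intro x
            dsimp only
            split_ifs
            · exact Real.sqrt_nonneg _
            · exact le_refl _
          · intro i _
            rw [int_if _ (ht k i).1 (fun x => Real.sqrt (2 * x / (1 - t k i)))]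
            exact int_sqrt _ (ht k i).1 (ht k i).2
      _ = (97 / 100) ^ d := by rw [Finset.prod_const, Finset.card_univ, Fintype.card_fin]
  -- the discrepancy in terms of `u`, `v`
  have hv : ∀ k x, (2 ^ d : ℝ) * (a k * (if ∀ i, t k i < x i then 1 else 0)) = c k * v k x := by
    intro k x
    by_cases hx : ∀ i, t k i < x i
    · have hvx : v k x = ∏ i, (1 / (1 - t k i)) := by
        simp only [v]
        exact Finset.prod_congr rfl fun i _ => if_pos (hx i)
      have hp : ∏ i, (1 - t k i) ≠ 0 := Finset.prod_ne_zero_iff.2 fun i _ => (hpos k i).ne'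
      rw [if_pos hx, hvx]
      simp only [c]
      rw [Finset.prod_div_distrib]
      simp only [Finset.prod_const_one]
      field_simp
    · have hvx : v k x = 0 := by
        push Not at hx
        obtain ⟨i, hi⟩ := hx
        exact Finset.prod_eq_zero (Finset.mem_univ i) (if_neg (not_lt.2 hi))
      rw [if_neg hx, hvx]
      ring
  have hdisc : (2 : ℝ) ^ d * disc a t = ∫ x, |∑ k, c k * v k x - u x| ∂μ := by
    rw [disc, restrict_cube, ← integral_const_mul]
    apply integral_congr_ae
    refine Filter.Eventually.of_forall fun x => ?_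
    dsimp only
    have e1 : ∑ k, c k * v k x - u x =
        2 ^ d * (∑ k, a k * (if ∀ i, t k i < x i then 1 else 0) - ∏ i, x i) := by
      rw [mul_sub, Finset.mul_sum]
      congr 1
      · exact Finset.sum_congr rfl fun k _ => (hv k x).symm
      · simp only [u]
        rw [Finset.prod_mul_distrib]
        simp
    rw [e1, abs_mul, abs_of_nonneg (show (0 : ℝ) ≤ 2 ^ d by positivity)]
  have isum : Integrable (fun x => ∑ k, c k * v k x) μ :=
    integrable_finsetSum _ fun k _ => (iv k).const_mul _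
  have iabs : Integrable (fun x => |∑ k, c k * v k x - u x|) μ := (isum.sub iu).abs
  set W : ℝ := ∑ k, c k with hW
  have L1 : W - 1 ≤ ∫ x, |∑ k, c k * v k x - u x| ∂μ := by
    calc W - 1 = ∫ x, (∑ k, c k * v k x - u x) ∂μ := by
          rw [integral_sub isum iu, integral_finsetSum _ fun k _ => (iv k).const_mul _, Iu]
          congr 1
          rw [hW]
          refine Finset.sum_congr rfl fun k _ => ?_
          rw [integral_const_mul, Iv, mul_one]
      _ ≤ _ := integral_mono (isum.sub iu) iabs fun x => le_abs_self _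
  have hcube : ∀ᵐ x ∂μ, ∀ i, 0 ≤ x i := by
    rw [hμ, ← restrict_cube]
    filter_upwards [ae_restrict_mem measurableSet_Icc] with x hx i
    exact hx.1 i
  have is' : Integrable (fun x => ∑ k, (1 + c k) * s k x) μ :=
    integrable_finsetSum _ fun k _ => (is k).const_mul _
  have L2 : 1 - (N + W) * (97 / 100) ^ d ≤ ∫ x, |∑ k, c k * v k x - u x| ∂μ := by
    calc 1 - (N + W) * (97 / 100) ^ d ≤ ∫ x, (u x - ∑ k, (1 + c k) * s k x) ∂μ := by
          rw [integral_sub iu is', integral_finsetSum _ fun k _ => (is k).const_mul _, Iu]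
          have : ∑ k, ∫ x, (1 + c k) * s k x ∂μ ≤ (N + W) * (97 / 100) ^ d := by
            calc _ = ∑ k, (1 + c k) * ∫ x, s k x ∂μ := by
                  refine Finset.sum_congr rfl fun k _ => ?_
                  rw [integral_const_mul]
              _ ≤ ∑ k, (1 + c k) * (97 / 100) ^ d := by
                  apply Finset.sum_le_sum
                  intro k _
                  exact mul_le_mul_of_nonneg_left (Is k) (by linarith [hc k])
              _ = (N + W) * (97 / 100) ^ d := by
                  rw [← Finset.sum_mul, Finset.sum_add_distrib]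
                  simp [hW]
          linarith
      _ ≤ _ := by
          apply integral_mono_ae (iu.sub is') iabs
          filter_upwards [hcube] with x hx
          apply pointwise c (fun k => v k x) (fun k => s k x) (u x) hc
          · intro k
            apply Finset.prod_nonneg
            intro i _
            split_ifs
            · exact (one_div_pos.2 (hpos k i)).le
            · exact le_refl _
          · intro k
            apply Finset.prod_nonneg
            intro i _
            split_ifs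
            · exact Real.sqrt_nonneg _
            · exact le_refl _
          · exact Finset.prod_nonneg fun i _ => by linarith [hx i]
          · intro k
            simp only [s, u, v]
            rw [← Finset.prod_pow, ← Finset.prod_mul_distrib]
            apply Finset.prod_congr rfl
            intro i _
            by_cases hi : t k i < x i
            · simp only [if_pos hi]
              rw [Real.sq_sqrt (div_nonneg (by linarith [hx i]) (hpos k i).le)]
              ring
            · simp [if_neg hi]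
  rw [div_le_iff₀ (by positivity), mul_comm (disc a t), hdisc]
  have hq : (0 : ℝ) ≤ (97 / 100) ^ d := by positivity
  have hN : (0 : ℝ) ≤ N := Nat.cast_nonneg _
  rcases le_total W 2 with h | h
  · nlinarith
  · nlinarith

/-- The unit ball of `F_{d,∞}`: the functions `f(x) = ∫_{[x,1]} g(y) dy` with `|g| ≤ 1`. -/
def UnitBall (d : ℕ) : Set ((Fin d → ℝ) → ℝ) :=
  {f | ∃ g : (Fin d → ℝ) → ℝ, Measurable g ∧ (∀ y, |g y| ≤ 1) ∧
    ∀ x ∈ Icc (0 : Fin d → ℝ) 1, f x = ∫ y in Icc x 1, g y}

/-- The worst-case error of the quadrature formula with nodes `t k` and weights `a k`. -/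
noncomputable def err {d N : ℕ} (a : Fin N → ℝ) (t : Fin N → Fin d → ℝ) : ℝ :=
  sSup {r | ∃ f ∈ UnitBall d, r = |(∫ x in Icc (0 : Fin d → ℝ) 1, f x) - ∑ k, a k * f (t k)|}

theorem int_ball (g : (Fin d → ℝ) → ℝ) (hg : Measurable g) (hg1 : ∀ y, |g y| ≤ 1) :
    ∫ x in Icc (0 : Fin d → ℝ) 1, (∫ y in Icc x 1, g y) =
      ∫ y in Icc (0 : Fin d → ℝ) 1, g y * ∏ i, y i := by
  set μ : Measure (Fin d → ℝ) := (volume : Measure (Fin d → ℝ)).restrict (Icc 0 1) with hμ
  have hfin : IsFiniteMeasure μ := by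
    constructor
    rw [hμ, Measure.restrict_apply_univ]
    exact isCompact_Icc.measure_lt_top
  have h1 : ∀ x ∈ Icc (0 : Fin d → ℝ) 1, ∫ y in Icc x 1, g y = ∫ y, (Ici x).indicator g y ∂μ := by
    intro x hx
    rw [integral_indicator measurableSet_Ici, hμ, Measure.restrict_restrict measurableSet_Ici]
    congr 2
    ext y
    simp only [mem_inter_iff, mem_Ici, mem_Icc]
    constructor
    · rintro ⟨h1, h2⟩; exact ⟨h1, hx.1.trans h1, h2⟩
    · rintro ⟨h1, h2, h3⟩; exact ⟨h1, h3⟩
  rw [setIntegral_congr_fun measurableSet_Icc h1]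
  have hmeas : Measurable (Function.uncurry fun x y : Fin d → ℝ => (Ici x).indicator g y) := by
    have : (Function.uncurry fun x y : Fin d → ℝ => (Ici x).indicator g y) =
        ({p : (Fin d → ℝ) × (Fin d → ℝ) | p.1 ≤ p.2}).indicator (fun p => g p.2) := by
      funext p
      rcases p with ⟨x, y⟩
      by_cases h : x ≤ y
      · rw [indicator_of_mem (show (x, y) ∈ {p : (Fin d → ℝ) × (Fin d → ℝ) | p.1 ≤ p.2} from h)]
        exact indicator_of_mem (show y ∈ Ici x from h) g
      · rw [indicator_of_notMem (show (x, y) ∉ {p : (Fin d → ℝ) × (Fin d → ℝ) | p.1 ≤ p.2} from h)]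
        exact indicator_of_notMem (show y ∉ Ici x from h) g
    rw [this]
    exact (hg.comp measurable_snd).indicator
      (isClosed_le continuous_fst continuous_snd).measurableSet
  have hint : Integrable (Function.uncurry fun x y : Fin d → ℝ => (Ici x).indicator g y) (μ.prod μ) := by
    refine Integrable.of_bound hmeas.aestronglyMeasurable 1 (Filter.Eventually.of_forall ?_)
    rintro ⟨x, y⟩
    simp only [Function.uncurry]
    rw [Real.norm_eq_abs]
    by_cases h : y ∈ Ici x
    · rw [indicator_of_mem h]; exact hg1 y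
    · rw [indicator_of_notMem h]; simp
  rw [integral_integral_swap hint]
  apply setIntegral_congr_fun measurableSet_Icc
  intro y hy
  dsimp only
  have h2 : ∀ x : Fin d → ℝ, (Ici x).indicator g y = (Iic y).indicator (fun _ => g y) x := by
    intro x
    by_cases h : x ≤ y
    · rw [indicator_of_mem (show y ∈ Ici x from h), indicator_of_mem (show x ∈ Iic y from h)]
    · rw [indicator_of_notMem (show y ∉ Ici x from h), indicator_of_notMem (show x ∉ Iic y from h)]
  simp_rw [h2]
  rw [integral_indicator measurableSet_Iic, hμ, Measure.restrict_restrict measurableSet_Iic,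
    setIntegral_const]
  have h3 : Iic y ∩ Icc (0 : Fin d → ℝ) 1 = Icc 0 y := by
    ext x
    simp only [mem_inter_iff, mem_Iic, mem_Icc]
    constructor
    · rintro ⟨h1, h2, h3⟩; exact ⟨h2, h1⟩
    · rintro ⟨h1, h2⟩; exact ⟨h2, h1, h2.trans hy.2⟩
  rw [h3, Measure.real, Real.volume_Icc_pi_toReal hy.1, smul_eq_mul, mul_comm]
  simp

theorem int_node (g : (Fin d → ℝ) → ℝ) (τ : Fin d → ℝ) (hτ : 0 ≤ τ) :
    ∫ y in Icc τ 1, g y =
      ∫ y in Icc (0 : Fin d → ℝ) 1, g y * (if ∀ i, τ i < y i then 1 else 0) := by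
  have h1 : ∫ y in Icc τ 1, g y = ∫ y in Icc (0 : Fin d → ℝ) 1, (Ici τ).indicator g y := by
    rw [integral_indicator measurableSet_Ici, Measure.restrict_restrict measurableSet_Ici]
    congr 2
    ext y
    simp only [mem_inter_iff, mem_Ici, mem_Icc]
    constructor
    · rintro ⟨h1, h2⟩; exact ⟨h1, hτ.trans h1, h2⟩
    · rintro ⟨h1, h2, h3⟩; exact ⟨h1, h3⟩
  rw [h1]
  apply setIntegral_congr_ae measurableSet_Icc
  have h2 : (pi univ fun i => Ioi (τ i)) =ᵐ[(volume : Measure (Fin d → ℝ))] Ici τ := by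
    rw [volume_pi]
    exact Measure.univ_pi_Ioi_ae_eq_Ici
  filter_upwards [h2] with y hy _
  have hy' : (∀ i, τ i < y i) ↔ τ ≤ y := by
    have := hy
    simp only [eq_iff_iff] at this
    constructor
    · intro h
      exact this.1 (fun i _ => h i)
    · intro h i
      exact this.2 h i (mem_univ i)
  by_cases h : τ ≤ y
  · rw [indicator_of_mem (show y ∈ Ici τ from h), if_pos (hy'.2 h), mul_one]
  · rw [indicator_of_notMem (show y ∉ Ici τ from h), if_neg (fun h' => h (hy'.1 h')), mul_zero]

/-- the signed discrepancy function -/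
noncomputable def Dfun (a : Fin N → ℝ) (t : Fin N → Fin d → ℝ) (y : Fin d → ℝ) : ℝ :=
  ∏ i, y i - ∑ k, a k * (if ∀ i, t k i < y i then 1 else 0)

theorem Dfun_meas : Measurable (Dfun a t) := by
  unfold Dfun
  refine Measurable.sub ?_ ?_
  · exact Finset.measurable_prod _ fun i _ => measurable_pi_apply i
  · refine Finset.measurable_sum _ fun k _ => Measurable.const_mul ?_ _
    refine Measurable.ite ?_ measurable_const measurable_const
    have : {y : Fin d → ℝ | ∀ i, t k i < y i} = pi univ fun i => Ioi (t k i) := by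
      ext y; simp
    rw [this]
    exact MeasurableSet.univ_pi fun i => measurableSet_Ioi

theorem finite_cube : IsFiniteMeasure ((volume : Measure (Fin d → ℝ)).restrict (Icc 0 1)) := by
  constructor
  rw [Measure.restrict_apply_univ]
  exact isCompact_Icc.measure_lt_top

theorem int_prod_meas : IntegrableOn (fun y : Fin d → ℝ => ∏ i, y i) (Icc 0 1) := by
  have : Continuous fun y : Fin d → ℝ => ∏ i, y i := by fun_prop
  exact this.continuousOn.integrableOn_compact isCompact_Icc

theorem int_ite (τ : Fin d → ℝ) :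
    IntegrableOn (fun y : Fin d → ℝ => if ∀ i, τ i < y i then (1 : ℝ) else 0) (Icc 0 1) := by
  have := finite_cube (d := d)
  have hm : Measurable (fun y : Fin d → ℝ => if ∀ i, τ i < y i then (1 : ℝ) else 0) := by
    refine Measurable.ite ?_ measurable_const measurable_const
    have : {y : Fin d → ℝ | ∀ i, τ i < y i} = pi univ fun i => Ioi (τ i) := by
      ext y; simp
    rw [this]
    exact MeasurableSet.univ_pi fun i => measurableSet_Ioi
  refine Integrable.of_bound hm.aestronglyMeasurable 1 (Filter.Eventually.of_forall ?_)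
  intro y
  split_ifs <;> simp

theorem Dfun_int : IntegrableOn (Dfun a t) (Icc 0 1) := by
  unfold Dfun
  refine Integrable.sub int_prod_meas ?_
  exact integrable_finsetSum _ fun k _ => (int_ite (t k)).const_mul _

theorem int_ball_node (ht : ∀ k i, 0 ≤ t k i ∧ t k i < 1) (g f : (Fin d → ℝ) → ℝ) (hg : Measurable g)
    (hg1 : ∀ y, |g y| ≤ 1) (hf : ∀ x ∈ Icc (0 : Fin d → ℝ) 1, f x = ∫ y in Icc x 1, g y) :
    (∫ x in Icc (0 : Fin d → ℝ) 1, f x) - ∑ k, a k * f (t k) =
      ∫ y in Icc (0 : Fin d → ℝ) 1, g y * Dfun a t y := by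
  have hbd : ∀ h : (Fin d → ℝ) → ℝ, IntegrableOn h (Icc 0 1) →
      IntegrableOn (fun y => g y * h y) (Icc 0 1) := by
    intro h hh
    exact Integrable.bdd_mul hh hg.aestronglyMeasurable
      (Filter.Eventually.of_forall fun y => by rw [Real.norm_eq_abs]; exact hg1 y)
  have e1 : ∫ x in Icc (0 : Fin d → ℝ) 1, f x = ∫ y in Icc (0 : Fin d → ℝ) 1, g y * ∏ i, y i := by
    rw [setIntegral_congr_fun measurableSet_Icc hf, int_ball g hg hg1]
  have e2 : ∀ k, a k * f (t k) =
      ∫ y in Icc (0 : Fin d → ℝ) 1, a k * (g y * (if ∀ i, t k i < y i then 1 else 0)) := by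
    intro k
    have hk : t k ∈ Icc (0 : Fin d → ℝ) 1 := ⟨fun i => (ht k i).1, fun i => (ht k i).2.le⟩
    rw [hf _ hk, int_node g (t k) hk.1, integral_const_mul]
  rw [e1, Finset.sum_congr rfl fun k _ => e2 k,
    ← integral_finsetSum _ fun k _ => (hbd _ (int_ite (t k))).const_mul _,
    ← integral_sub (hbd _ int_prod_meas)
      (integrable_finsetSum _ fun k _ => (hbd _ (int_ite (t k))).const_mul _)]
  congr 1
  funext y
  unfold Dfun
  rw [mul_sub, Finset.mul_sum]
  congr 1
  exact Finset.sum_congr rfl fun k _ => by ring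

theorem disc_eq : disc a t = ∫ y in Icc (0 : Fin d → ℝ) 1, |Dfun a t y| := by
  unfold disc Dfun
  congr 1
  funext y
  rw [abs_sub_comm]

/-- The worst-case error is the generalized `L₁`-discrepancy. -/
theorem err_eq (ht : ∀ k i, 0 ≤ t k i ∧ t k i < 1) : err a t = disc a t := by
  have hgr : IsGreatest {r | ∃ f ∈ UnitBall d,
      r = |(∫ x in Icc (0 : Fin d → ℝ) 1, f x) - ∑ k, a k * f (t k)|} (disc a t) := by
    constructor
    · let g : (Fin d → ℝ) → ℝ := fun y => if 0 ≤ Dfun a t y then 1 else -1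
      have hg : Measurable g :=
        Measurable.ite (measurableSet_le measurable_const (Dfun_meas a t)) measurable_const
          measurable_const
      have hg1 : ∀ y, |g y| ≤ 1 := by
        intro y
        simp only [g]
        split_ifs <;> simp
      refine ⟨fun x => ∫ y in Icc x 1, g y, ⟨g, hg, hg1, fun x _ => rfl⟩, ?_⟩
      rw [int_ball_node a t ht g _ hg hg1 (fun x _ => rfl), disc_eq]
      have : ∀ y, g y * Dfun a t y = |Dfun a t y| := by
        intro y
        simp only [g]
        split_ifs with h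
        · rw [abs_of_nonneg h, one_mul]
        · rw [abs_of_neg (not_le.1 h)]; ring
      simp_rw [this]
      rw [abs_of_nonneg (integral_nonneg fun y => abs_nonneg _)]
    · rintro r ⟨f, ⟨g, hg, hg1, hf⟩, rfl⟩
      rw [int_ball_node a t ht g f hg hg1 hf, disc_eq]
      refine (abs_integral_le_integral_abs).trans ?_
      have hbd : IntegrableOn (fun y => g y * Dfun a t y) (Icc 0 1) :=
        Integrable.bdd_mul (Dfun_int a t) hg.aestronglyMeasurable
          (Filter.Eventually.of_forall fun y => by rw [Real.norm_eq_abs]; exact hg1 y)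
      refine integral_mono hbd.abs (Dfun_int a t).abs ?_
      intro y
      dsimp only
      rw [abs_mul]
      exact mul_le_of_le_one_left (abs_nonneg _) (hg1 y)
  exact hgr.csSup_eq

end main

/-- The minimal worst-case error of non-negative quadrature formulas with `N` nodes in `[0,1)^d`. -/
noncomputable def eplus (N d : ℕ) : ℝ :=
  sInf {e | ∃ (a : Fin N → ℝ) (t : Fin N → Fin d → ℝ),
    (∀ k, 0 ≤ a k) ∧ (∀ k i, 0 ≤ t k i ∧ t k i < 1) ∧ e = err a t}

/-- The information complexity `N⁺(ε,d)`, the least `N` with `e⁺(N,d) ≤ ε 2^{-d}`. -/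
noncomputable def Nplus (ε : ℝ) (d : ℕ) : ℕ∞ :=
  sInf {n : ℕ∞ | ∃ N : ℕ, n = N ∧ eplus N d ≤ ε / 2 ^ d}

theorem eplus_ge (N d : ℕ) : (1 - (N + 2) * (97 / 100) ^ d) / 2 ^ d ≤ eplus N d := by
  unfold eplus
  refine le_csInf ⟨err (fun _ : Fin N => 0) (fun _ _ => 0), fun _ => 0, fun _ _ => 0,
    fun _ => le_refl _, fun _ _ => ⟨le_refl _, zero_lt_one⟩, rfl⟩ ?_
  rintro e ⟨a, t, ha, ht, rfl⟩
  rw [err_eq a t ht]
  exact lower a t ha ht

theorem eplus_zero (d : ℕ) : eplus 0 d = 1 / 2 ^ d := by
  unfold eplus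
  have : {e | ∃ (a : Fin 0 → ℝ) (t : Fin 0 → Fin d → ℝ),
      (∀ k, 0 ≤ a k) ∧ (∀ k i, 0 ≤ t k i ∧ t k i < 1) ∧ e = err a t} = {1 / 2 ^ d} := by
    ext e
    simp only [mem_ofPred_eq, mem_singleton_iff]
    have h : ∀ (a : Fin 0 → ℝ) (t : Fin 0 → Fin d → ℝ), err a t = 1 / 2 ^ d := by
      intro a t
      rw [err_eq a t (fun k => k.elim0), disc_eq]
      have h1 : ∀ y ∈ Icc (0 : Fin d → ℝ) 1, |Dfun a t y| = ∏ i, y i := by
        intro y hy
        unfold Dfun
        rw [Fin.sum_univ_zero, sub_zero,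
          abs_of_nonneg (Finset.prod_nonneg fun i _ => hy.1 i)]
      rw [setIntegral_congr_fun measurableSet_Icc h1, restrict_cube]
      have h2 := integral_fintype_prod_eq_prod (𝕜 := ℝ) (μ := fun _ : Fin d => lam) (fun _ x => x)
      rw [h2]
      have h3 : ∫ x, x ∂lam = 1 / 2 := by
        have := int_two
        rw [integral_const_mul] at this
        linarith
      rw [Finset.prod_const, h3, Finset.card_univ, Fintype.card_fin, one_div_pow]
    constructor
    · rintro ⟨a, t, _, _, rfl⟩
      exact h a t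
    · rintro rfl
      exact ⟨fun k => k.elim0, fun k => k.elim0, fun k => k.elim0, fun k => k.elim0, (h _ _).symm⟩
  rw [this, csInf_singleton]

theorem curse (ε : ℝ) (hε : ε < 1) :
    ∀ᶠ d : ℕ in Filter.atTop, ENNReal.ofReal ((51 / 50) ^ d) ≤ (Nplus ε d : ENNReal) := by
  have htend : Filter.Tendsto (fun d : ℕ => (5000 / 4947 : ℝ) ^ d) Filter.atTop Filter.atTop :=
    tendsto_pow_atTop_atTop_of_one_lt (by norm_num)
  filter_upwards [htend.eventually_ge_atTop (3 / (1 - ε))] with d hd
  have h1 : 0 < 1 - ε := by linarith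
  rw [div_le_iff₀ h1] at hd
  have key : ∀ N : ℕ, eplus N d ≤ ε / 2 ^ d → ((51 / 50 : ℝ) ^ d) ≤ N := by
    intro N hN
    have h2 := (eplus_ge N d).trans hN
    rw [div_le_div_iff_of_pos_right (by positivity)] at h2
    have h3 : (1 - ε) * (100 / 97) ^ d ≤ N + 2 := by
      have h4 : (97 / 100 : ℝ) ^ d * (100 / 97) ^ d = 1 := by
        rw [← mul_pow]; norm_num
      have h5 : 1 - ε ≤ (N + 2) * (97 / 100) ^ d := by linarith
      calc (1 - ε) * (100 / 97) ^ d ≤ (N + 2) * (97 / 100) ^ d * (100 / 97) ^ d :=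
            mul_le_mul_of_nonneg_right h5 (by positivity)
        _ = N + 2 := by rw [mul_assoc, h4, mul_one]
    have h6 : (100 / 97 : ℝ) ^ d = (51 / 50) ^ d * (5000 / 4947) ^ d := by
      rw [← mul_pow]; norm_num
    rw [h6] at h3
    have h7 : (1 : ℝ) ≤ (51 / 50) ^ d := one_le_pow₀ (by norm_num)
    nlinarith
  unfold Nplus
  have h8 : ∀ n : ℕ∞, (∃ N : ℕ, n = N ∧ eplus N d ≤ ε / 2 ^ d) →
      ENNReal.ofReal ((51 / 50) ^ d) ≤ (n : ENNReal) := by
    rintro n ⟨N, rfl, hN⟩
    rw [ENat.toENNReal_coe]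
    exact ENNReal.ofReal_le_of_le_toReal (by simpa using key N hN)
  by_cases hne : {n : ℕ∞ | ∃ N : ℕ, n = N ∧ eplus N d ≤ ε / 2 ^ d}.Nonempty
  · exact h8 _ (csInf_mem hne)
  · rw [not_nonempty_iff_eq_empty] at hne
    rw [hne]
    simp

/-- Integration on `F_{d,∞}` with non-negative quadrature formulas suffers from the curse of
dimensionality. -/
theorem result :
    (∀ (d N : ℕ) (a : Fin N → ℝ) (t : Fin N → Fin d → ℝ),
      (∀ k i, 0 ≤ t k i ∧ t k i < 1) → err a t = disc a t) ∧
    (∀ d : ℕ, eplus 0 d = 1 / 2 ^ d) ∧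
    (∀ N d : ℕ, (1 - (N + 2) * (97 / 100) ^ d) / 2 ^ d ≤ eplus N d) ∧
    (∀ ε : ℝ, ε < 1 → ∀ᶠ d : ℕ in Filter.atTop,
      ENNReal.ofReal ((51 / 50) ^ d) ≤ (Nplus ε d : ENNReal)) :=
  ⟨fun _ _ a t ht => err_eq a t ht, eplus_zero, eplus_ge, curse⟩

end Pool.Agent.Results.MP_2335a4_an.CurseL1
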